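import Pool.Agent.Helper11.OWN.Stretch

/-! MP_b8f462_co, Q1, negated form: bijections of bounded average stretch onto `A* = B⁰ ∪ B¹ ∪ C`. -/

set_option autoImplicit false

namespace Pool.Agent.Results.MP_b8f462_co.BoundedAverageStretch

/-- The number of ones of a point of the cube. -/
def ones {n : ℕ} (x : Fin n → Bool) : ℕ := (Finset.univ.filter fun i => x i = true).card

/-- `B⁰`: the points with at most `k` ones. -/
def ballZero (n k : ℕ) : Finset (Fin n → Bool) := Finset.univ.filter fun x => ones x ≤ k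

/-- `B¹`: the points with at least `n - k` ones. -/
def ballOne (n k : ℕ) : Finset (Fin n → Bool) := Finset.univ.filter fun x => n - k ≤ ones x

/-- The hypercube graph `Q_m`: two points are adjacent when their Hamming distance is `1`. -/
def cubeGraph (m : ℕ) : SimpleGraph (Fin m → Bool) where
  Adj x y := hammingDist x y = 1
  symm := ⟨fun x y h => by rw [hammingDist_comm]; exact h⟩
  loopless := ⟨fun x h => by rw [hammingDist_self] at h; exact zero_ne_one h⟩

instance (m : ℕ) : DecidableRel (cubeGraph m).Adj :=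
  fun x y => inferInstanceAs (Decidable (hammingDist x y = 1))

/-- The Hamming distance of the images of the two ends of an edge. -/
def stretch {m n : ℕ} (φ : (Fin m → Bool) → (Fin n → Bool)) : Sym2 (Fin m → Bool) → ℝ :=
  Sym2.lift ⟨fun x y => (hammingDist (φ x) (φ y) : ℝ),
    fun _ _ => congrArg Nat.cast (hammingDist_comm _ _)⟩

/-- The average stretch: the mean of the stretch over the edges of `Q_m`. -/
noncomputable def avgstretch {m n : ℕ} (φ : (Fin m → Bool) → (Fin n → Bool)) : ℝ :=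
  (∑ e ∈ (cubeGraph m).edgeFinset, stretch φ e) / ((cubeGraph m).edgeFinset.card : ℝ)

/-- For every `n ≥ 5` the radius `k* n` exists, the balls are disjoint, and there are a set `C n`
outside the balls with `|B⁰ ∪ B¹| + |C n| = 2^(n-1)` and a bijection of `{0,1}^(n-1)` onto
`B⁰ ∪ B¹ ∪ C n` of average stretch at most `3 * 10^14`. -/
theorem result :
    ∃ (k : ℕ → ℕ) (C : (n : ℕ) → Finset (Fin n → Bool))
      (φ : (n : ℕ) → (Fin (n - 1) → Bool) → (Fin n → Bool)), ∀ n : ℕ, 5 ≤ n →
      IsGreatest {j : ℕ | 1 ≤ j ∧ j ≤ n ∧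
        ∑ i ∈ Finset.range (j + 1), n.choose i ≤ 2 ^ (n - 2)} (k n) ∧
      Disjoint (ballZero n (k n)) (ballOne n (k n)) ∧
      Disjoint (C n) (ballZero n (k n) ∪ ballOne n (k n)) ∧
      (ballZero n (k n) ∪ ballOne n (k n)).card + (C n).card = 2 ^ (n - 1) ∧
      Set.BijOn (φ n) Set.univ
        (ballZero n (k n) ∪ ballOne n (k n) ∪ C n : Finset (Fin n → Bool)) ∧
      avgstretch (φ n) ≤ 3 * 10 ^ 14 := by
  have h : ∀ n : ℕ, ∃ (k : ℕ) (C : Finset (Fin n → Bool))
      (φ : (Fin (n - 1) → Bool) → (Fin n → Bool)), 5 ≤ n →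
      IsGreatest {j : ℕ | 1 ≤ j ∧ j ≤ n ∧
        ∑ i ∈ Finset.range (j + 1), n.choose i ≤ 2 ^ (n - 2)} k ∧
      Disjoint (ballZero n k) (ballOne n k) ∧
      Disjoint C (ballZero n k ∪ ballOne n k) ∧
      (ballZero n k ∪ ballOne n k).card + C.card = 2 ^ (n - 1) ∧
      Set.BijOn φ Set.univ (ballZero n k ∪ ballOne n k ∪ C : Finset (Fin n → Bool)) ∧
      avgstretch φ ≤ 3 * 10 ^ 14 := by
    intro n
    by_cases hn : 5 ≤ n
    · obtain ⟨N, rfl⟩ : ∃ N, n = N + 1 := ⟨n - 1, by omega⟩
      obtain ⟨k, C, φ, H⟩ := Pool.Agent.Helper11.OWN.main N (by omega)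
      exact ⟨k, C, φ, fun _ => H⟩
    · exact ⟨0, ∅, fun _ _ => true, fun h => absurd h hn⟩
  choose k C φ H using h
  exact ⟨k, C, φ, H⟩

end Pool.Agent.Results.MP_b8f462_co.BoundedAverageStretch
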